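import Pool.Agent.Helper74.DG2.Defs

/-!
# Dark islands: edges which cross the broken lines
-/

set_option autoImplicit false

namespace Pool.Agent.Helper74.DG2

open Pool.Agent.Helper18.RAC

variable {V : Type*}

theorem InK.swap {X Y : V → ℝ} {a b : ℝ} {v : V} (h : InK X Y a b v) : InK Y X b a v := by
  obtain ⟨h1, h2, h3, h4⟩ := h
  exact ⟨by linarith, h3, h2, by linarith⟩

/-- the first parameter at which one of three affine functions vanishes -/
theorem three_zero {a₁ a₂ a₃ b₁ b₂ b₃ : ℝ} (h1 : 0 < a₁) (h2 : 0 < a₂) (h3 : 0 < a₃)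
    (h : b₁ ≤ 0 ∨ b₂ ≤ 0 ∨ b₃ ≤ 0) : ∃ s : ℝ, 0 < s ∧ s ≤ 1 ∧
      0 ≤ (1 - s) * a₁ + s * b₁ ∧ 0 ≤ (1 - s) * a₂ + s * b₂ ∧ 0 ≤ (1 - s) * a₃ + s * b₃ ∧
      ((1 - s) * a₁ + s * b₁ = 0 ∨ (1 - s) * a₂ + s * b₂ = 0 ∨ (1 - s) * a₃ + s * b₃ = 0) := by
  set g : ℝ → ℝ := fun s => min ((1 - s) * a₁ + s * b₁)
    (min ((1 - s) * a₂ + s * b₂) ((1 - s) * a₃ + s * b₃)) with hg
  have hc : Continuous g := by
    rw [hg]
    fun_prop
  have h0 : 0 < g 0 := by
    simp only [hg, sub_zero, one_mul, zero_mul, add_zero, lt_min_iff]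
    exact ⟨h1, h2, h3⟩
  have h4 : g 1 ≤ 0 := by
    simp only [hg, sub_self, one_mul, zero_mul, zero_add, min_le_iff]
    exact h
  obtain ⟨s, ⟨hs0, hs1⟩, hs⟩ := intermediate_value_Icc' (zero_le_one (α := ℝ)) hc.continuousOn
    (show (0 : ℝ) ∈ Set.Icc (g 1) (g 0) from ⟨h4, h0.le⟩)
  have hs' : s ≠ 0 := by
    rintro rfl
    rw [hs] at h0
    exact lt_irrefl _ h0
  have h5 : 0 ≤ g s := hs.ge
  rw [hg] at hs h5
  simp only [le_min_iff] at h5
  refine ⟨s, lt_of_le_of_ne hs0 (Ne.symm hs'), hs1, h5.1, h5.2.1, h5.2.2, ?_⟩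
  simp only at hs
  rcases min_choice ((1 - s) * a₁ + s * b₁)
    (min ((1 - s) * a₂ + s * b₂) ((1 - s) * a₃ + s * b₃)) with e | e
  · rw [e] at hs
    exact Or.inl hs
  · rw [e] at hs
    rcases min_choice ((1 - s) * a₂ + s * b₂) ((1 - s) * a₃ + s * b₃) with e' | e'
    · rw [e'] at hs
      exact Or.inr (Or.inl hs)
    · rw [e'] at hs
      exact Or.inr (Or.inr hs)

/-- two edges without common ends which meet -/
theorem meet_edges {H : SimpleGraph V} {X Y : V → ℝ} {E F : ℝ} (hd : ADraw H X Y E F)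
    {p p' u v : V} (hp : H.Adj p p') (he : H.Adj u v) (hu : p ≠ u) (hu' : p' ≠ u) (hv : p ≠ v)
    (hv' : p' ≠ v) {s t : ℝ} (hs0 : 0 < s) (hs1 : s ≤ 1) (ht0 : 0 ≤ t) (ht1 : t ≤ 1)
    (hx : (1 - s) * X p + s * X p' = (1 - t) * X u + t * X v)
    (hy : (1 - s) * Y p + s * Y p' = (1 - t) * Y u + t * Y v) :
    s < 1 ∧ 0 < t ∧ t < 1 ∧
      E * ((X p' - X p) * (X v - X u)) + F * ((Y p' - Y p) * (Y v - Y u)) = 0 := by
  have h1 : s < 1 := by
    refine lt_of_le_of_ne hs1 ?_
    rintro rfl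
    exact hd.vtx u v p' he hu' hv' t ht0 ht1 (by linarith) (by linarith)
  have h2 : 0 < t := by
    refine lt_of_le_of_ne ht0 ?_
    rintro rfl
    exact hd.vtx p p' u hp hu.symm hu'.symm s hs0.le hs1 (by linarith) (by linarith)
  have h3 : t < 1 := by
    refine lt_of_le_of_ne ht1 ?_
    rintro rfl
    exact hd.vtx p p' v hp hv.symm hv'.symm s hs0.le hs1 (by linarith) (by linarith)
  refine ⟨h1, h2, h3, hd.crs p p' u v hp he ?_ s t hs0 h1 h2 h3 hx hy⟩
  intro e
  rcases Sym2.eq_iff.1 e with ⟨e1, -⟩ | ⟨e1, -⟩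
  · exact hu e1
  · exact hv e1

theorem cvx {s A A' C : ℝ} (h0 : 0 < s) (h1 : s ≤ 1) (hA : A < C) (hA' : A' < C) :
    (1 - s) * A + s * A' < C := by
  have e1 : (1 - s) * A ≤ (1 - s) * C := mul_le_mul_of_nonneg_left hA.le (by linarith)
  have e2 : s * A' < s * C := mul_lt_mul_of_pos_left hA' h0
  linarith

/-- an edge which leaves the left side crosses one of the three edges of the line -/
theorem VC.cross {H : SimpleGraph V} {X Y : V → ℝ} {E F a b : ℝ} (hd : ADraw H X Y E F)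
    {N S T B p p' : V} (ha : 0 < a) (hb : 0 < b) (hc : VC H X Y b N S T B) (hp : H.Adj p p')
    (k : InK X Y a b p) (k' : InK X Y a b p') (nT : p' ≠ T) (nB : p' ≠ B)
    (h1 : Lf X Y b T B p) (h2 : ¬ Lf X Y b T B p') :
    ∃ s x y : ℝ, 0 < s ∧ s < 1 ∧ x = (1 - s) * X p + s * X p' ∧ y = (1 - s) * Y p + s * Y p' ∧
      ((0 < x ∧ x < X T ∧ Y T < y ∧ y < 1 ∧
          E * ((X p' - X p) * X T) + F * ((Y p' - Y p) * (Y T - 1)) = 0) ∨
        (x = X T ∧ Y B < y ∧ y < Y T ∧ Y p' = Y p) ∨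
        (0 < x ∧ x < X T ∧ -b < y ∧ y < Y B ∧
          E * ((X p' - X p) * X T) + F * ((Y p' - Y p) * (b + Y B)) = 0)) := by
  have hXT := hc.XT
  have hYT := hc.YT
  have hYT1 := hc.YT1
  have hYB := hc.YB
  have hYBb := hc.YBb
  have hXB := hc.XB
  have hXN := hc.XN
  have hYN := hc.YN
  have hXS := hc.XS
  have hYS := hc.YS
  obtain ⟨l1, l2, l3⟩ := h1
  have hn : X T - X p' ≤ 0 ∨ X T * (1 - Y p') - X p' * (1 - Y T) ≤ 0 ∨
      X T * (b + Y p') - X p' * (b + Y B) ≤ 0 := by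
    by_contra hcon
    push Not at hcon
    exact h2 ⟨by linarith [hcon.1], by linarith [hcon.2.1], by linarith [hcon.2.2]⟩
  obtain ⟨s, hs0, hs1, g1, g2, g3, hz⟩ := three_zero (sub_pos.2 l1) (sub_pos.2 l2) (sub_pos.2 l3) hn
  obtain ⟨x, hx⟩ : ∃ x, x = (1 - s) * X p + s * X p' := ⟨_, rfl⟩
  obtain ⟨y, hy⟩ : ∃ y, y = (1 - s) * Y p + s * Y p' := ⟨_, rfl⟩
  have e1 : (1 - s) * (X T - X p) + s * (X T - X p') = X T - x := by rw [hx]; ring
  have e2 : (1 - s) * (X T * (1 - Y p) - X p * (1 - Y T)) +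
      s * (X T * (1 - Y p') - X p' * (1 - Y T)) = X T * (1 - y) - x * (1 - Y T) := by
    rw [hx, hy]; ring
  have e3 : (1 - s) * (X T * (b + Y p) - X p * (b + Y B)) +
      s * (X T * (b + Y p') - X p' * (b + Y B)) = X T * (b + y) - x * (b + Y B) := by
    rw [hx, hy]; ring
  rw [e1] at g1
  rw [e2] at g2
  rw [e3] at g3
  rw [e1, e2, e3] at hz
  -- the point is in the kite
  have k3 : a * y - x < a := by
    have := cvx hs0 hs1 k.2.2.1 k'.2.2.1
    rw [hx, hy]
    linarith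
  have k4 : -(b * x) - a * y < a * b := by
    have := cvx hs0 hs1 k.2.2.2 k'.2.2.2
    rw [hx, hy]
    linarith
  -- corners
  have pN : p ≠ N := by
    rintro rfl
    have := k.1
    rw [hXN, hYN] at this
    linarith
  have pN' : p' ≠ N := by
    rintro rfl
    have := k'.1
    rw [hXN, hYN] at this
    linarith
  have pS : p ≠ S := by
    rintro rfl
    have := k.2.1
    rw [hXS, hYS] at this
    linarith
  have pS' : p' ≠ S := by
    rintro rfl
    have := k'.2.1
    rw [hXS, hYS] at this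
    linarith
  have pT : p ≠ T := by
    rintro rfl
    exact lt_irrefl _ l1
  have pB : p ≠ B := by
    rintro rfl
    rw [hXB] at l1
    exact lt_irrefl _ l1
  rcases hz with hz | hz | hz
  · -- on the vertical edge
    have hxT : x = X T := by linarith
    have hy1 : y ≤ Y T := by
      rw [hxT] at g2
      have : 0 ≤ X T * (Y T - y) := by linarith
      have := nonneg_of_mul_nonneg_right this hXT
      linarith
    have hy2 : Y B ≤ y := by
      rw [hxT] at g3
      have : 0 ≤ X T * (y - Y B) := by linarith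
      have := nonneg_of_mul_nonneg_right this hXT
      linarith
    have hTB : 0 < Y T - Y B := by linarith
    obtain ⟨m1, m2, m3, m4⟩ := meet_edges hd hp hc.TB pT nT pB nB hs0 hs1
      (t := (Y T - y) / (Y T - Y B)) (div_nonneg (by linarith) hTB.le)
      ((div_le_one hTB).2 (by linarith))
      (by rw [hXB, ← hx, hxT]; ring) (by rw [← hy]; field_simp; ring)
    refine ⟨s, x, y, hs0, m1, hx, hy, Or.inr (Or.inl ⟨hxT, ?_, ?_, ?_⟩)⟩
    · have := (div_lt_one hTB).1 m3
      linarith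
    · have := (div_pos_iff_of_pos_right hTB).1 m2
      linarith
    · rw [hXB] at m4
      have h5 : F * ((Y p' - Y p) * (Y B - Y T)) = 0 := by linarith
      rcases mul_eq_zero.1 h5 with h6 | h6
      · exact absurd h6 hd.F_pos.ne'
      · rcases mul_eq_zero.1 h6 with h7 | h7
        · linarith
        · linarith
  · -- on the upper edge
    have hx1 : x ≤ X T := by linarith
    have hy1 : y < 1 := by
      by_contra hcon
      push Not at hcon
      have h5 : X T * (1 - y) ≤ 0 := mul_nonpos_of_nonneg_of_nonpos hXT.le (by linarith)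
      have h6 : x * (1 - Y T) ≤ 0 := by linarith
      have h7 : x ≤ 0 := by
        by_contra h8
        push Not at h8
        have := mul_pos h8 (show 0 < 1 - Y T by linarith)
        linarith
      have h8 : 0 ≤ a * (y - 1) := mul_nonneg ha.le (by linarith)
      linarith
    have hx0 : 0 < x := by
      by_contra hcon
      push Not at hcon
      have h5 : x * (1 - Y T) ≤ 0 := mul_nonpos_of_nonpos_of_nonneg hcon (by linarith)
      have h6 : 0 < X T * (1 - y) := mul_pos hXT (by linarith)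
      linarith
    obtain ⟨m1, m2, m3, m4⟩ := meet_edges hd hp hc.NT pN pN' pT nT hs0 hs1
      (t := x / X T) (div_nonneg hx0.le hXT.le) ((div_le_one hXT).2 hx1)
      (by rw [hXN, ← hx]; field_simp; ring)
      (by
        rw [hYN, ← hy]
        have : y = 1 - x * (1 - Y T) / X T := by
          field_simp
          linarith
        rw [this]
        ring)
    have hx2 : x < X T := (div_lt_one hXT).1 m3
    refine ⟨s, x, y, hs0, m1, hx, hy, Or.inl ⟨hx0, hx2, ?_, hy1, ?_⟩⟩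
    · have h5 : 0 < (X T - x) * (1 - Y T) := mul_pos (by linarith) (by linarith)
      have h6 : 0 < X T * (y - Y T) := by linarith
      have := (mul_pos_iff_of_pos_left hXT).1 h6
      linarith
    · rw [hXN, hYN, sub_zero] at m4
      exact m4
  · -- on the lower edge
    have hx1 : x ≤ X T := by linarith
    have hy1 : -b < y := by
      by_contra hcon
      push Not at hcon
      have h5 : X T * (b + y) ≤ 0 := mul_nonpos_of_nonneg_of_nonpos hXT.le (by linarith)
      have h6 : x * (b + Y B) ≤ 0 := by linarith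
      have h7 : x ≤ 0 := by
        by_contra h8
        push Not at h8
        have := mul_pos h8 (show 0 < b + Y B by linarith)
        linarith
      have h8 : a * (b + y) ≤ 0 := mul_nonpos_of_nonneg_of_nonpos ha.le (by linarith)
      have h9 : b * x ≤ 0 := mul_nonpos_of_nonneg_of_nonpos hb.le h7
      linarith
    have hx0 : 0 < x := by
      by_contra hcon
      push Not at hcon
      have h5 : x * (b + Y B) ≤ 0 := mul_nonpos_of_nonpos_of_nonneg hcon (by linarith)
      have h6 : 0 < X T * (b + y) := mul_pos hXT (by linarith)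
      linarith
    obtain ⟨m1, m2, m3, m4⟩ := meet_edges hd hp hc.BS.symm pS pS' pB nB hs0 hs1
      (t := x / X T) (div_nonneg hx0.le hXT.le) ((div_le_one hXT).2 hx1)
      (by rw [hXS, ← hx, hXB]; field_simp; ring)
      (by
        rw [hYS, ← hy]
        have : y = -b + x * (b + Y B) / X T := by
          field_simp
          linarith
        rw [this]
        ring)
    have hx2 : x < X T := (div_lt_one hXT).1 m3
    refine ⟨s, x, y, hs0, m1, hx, hy, Or.inr (Or.inr ⟨hx0, hx2, hy1, ?_, ?_⟩)⟩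
    · have h5 : 0 < (X T - x) * (b + Y B) := mul_pos (by linarith) (by linarith)
      have h6 : 0 < X T * (Y B - y) := by linarith
      have := (mul_pos_iff_of_pos_left hXT).1 h6
      linarith
    · rw [hXS, hYS, sub_zero, hXB] at m4
      rw [← m4]
      ring

/-- the same for an edge whose ends are on different sides -/
theorem VC.cross' {H : SimpleGraph V} {X Y : V → ℝ} {E F a b : ℝ} (hd : ADraw H X Y E F)
    {N S T B p p' : V} (ha : 0 < a) (hb : 0 < b) (hc : VC H X Y b N S T B) (hp : H.Adj p p')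
    (k : InK X Y a b p) (k' : InK X Y a b p') (np : p ≠ T ∧ p ≠ B) (np' : p' ≠ T ∧ p' ≠ B)
    (h : ¬ (Lf X Y b T B p ↔ Lf X Y b T B p')) :
    ∃ s x y : ℝ, 0 < s ∧ s < 1 ∧ x = (1 - s) * X p + s * X p' ∧ y = (1 - s) * Y p + s * Y p' ∧
      ((0 < x ∧ x < X T ∧ Y T < y ∧ y < 1 ∧
          E * ((X p' - X p) * X T) + F * ((Y p' - Y p) * (Y T - 1)) = 0) ∨
        (x = X T ∧ Y B < y ∧ y < Y T ∧ Y p' = Y p) ∨
        (0 < x ∧ x < X T ∧ -b < y ∧ y < Y B ∧
          E * ((X p' - X p) * X T) + F * ((Y p' - Y p) * (b + Y B)) = 0)) := by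
  by_cases h1 : Lf X Y b T B p
  · exact hc.cross hd ha hb hp k k' np'.1 np'.2 h1 (fun h2 => h ⟨fun _ => h2, fun _ => h1⟩)
  · have h2 : Lf X Y b T B p' := by
      by_contra h2
      exact h ⟨fun h3 => absurd h3 h1, fun h3 => absurd h3 h2⟩
    obtain ⟨s, x, y, hs0, hs1, hx, hy, h3⟩ := hc.cross hd ha hb hp.symm k' k np.1 np.2 h2 h1
    refine ⟨1 - s, x, y, by linarith, by linarith, by rw [hx]; ring, by rw [hy]; ring, ?_⟩
    rcases h3 with ⟨c1, c2, c3, c4, c5⟩ | ⟨c1, c2, c3, c4⟩ | ⟨c1, c2, c3, c4, c5⟩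
    · exact Or.inl ⟨c1, c2, c3, c4, by linarith⟩
    · exact Or.inr (Or.inl ⟨c1, c2, c3, c4.symm⟩)
    · exact Or.inr (Or.inr ⟨c1, c2, c3, c4, by linarith⟩)

/-- the sides depend on the position only -/
theorem Lf_congr {X Y : V → ℝ} {b : ℝ} {T B p p' : V} (hX : X p' = X p) (hY : Y p' = Y p) :
    Lf X Y b T B p ↔ Lf X Y b T B p' := by
  unfold Lf
  rw [hX, hY]

/-- the sign of the slope of an edge which crosses an upper edge -/
theorem slope_up {E F dx dy x c : ℝ} (hE : 0 < E) (hF : 0 < F) (hx : 0 < x) (hc : c < 0)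
    (h : E * (dx * x) + F * (dy * c) = 0) (hne : ¬ (dx = 0 ∧ dy = 0)) : 0 < dx * dy := by
  have hy : dy ≠ 0 := by
    rintro rfl
    have h1 : E * x * dx = 0 := by linarith
    rcases mul_eq_zero.1 h1 with h2 | h2
    · exact absurd h2 (mul_pos hE hx).ne'
    · exact hne ⟨h2, rfl⟩
  have h1 : E * x * (dx * dy) = F * (-c) * dy ^ 2 := by
    linear_combination dy * h
  have h2 : 0 < F * (-c) * dy ^ 2 := mul_pos (mul_pos hF (by linarith)) (by positivity)
  rw [← h1] at h2
  exact (mul_pos_iff_of_pos_left (mul_pos hE hx)).1 h2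

/-- the sign of the slope of an edge which crosses a lower edge -/
theorem slope_dn {E F dx dy x c : ℝ} (hE : 0 < E) (hF : 0 < F) (hx : 0 < x) (hc : 0 < c)
    (h : E * (dx * x) + F * (dy * c) = 0) (hne : ¬ (dx = 0 ∧ dy = 0)) : dx * dy < 0 := by
  have h1 := slope_up (dx := dx) (dy := -dy) (c := -c) hE hF hx (by linarith) (by linarith)
    (fun h2 => hne ⟨h2.1, by linarith [h2.2]⟩)
  linarith

/-- two parallel directions -/
theorem par_eq {E F dx dy x c x' c' : ℝ} (hE : 0 < E) (hF : 0 < F)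
    (h : E * (dx * x) + F * (dy * c) = 0) (h' : E * (dx * x') + F * (dy * c') = 0)
    (hne : ¬ (dx = 0 ∧ dy = 0)) : x * c' = x' * c := by
  by_contra hcon
  have h1 : x * c' - x' * c ≠ 0 := sub_ne_zero.2 hcon
  refine hne ⟨?_, ?_⟩
  · have h2 : E * (x * c' - x' * c) * dx = 0 := by linear_combination c' * h - c * h'
    rcases mul_eq_zero.1 h2 with h3 | h3
    · exact absurd h3 (mul_ne_zero hE.ne' h1)
    · exact h3
  · have h2 : F * (x * c' - x' * c) * dy = 0 := by linear_combination x * h' - x' * h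
    rcases mul_eq_zero.1 h2 with h3 | h3
    · exact absurd h3 (mul_ne_zero hF.ne' h1)
    · exact h3

/-- two neighbours of a vertex on one ray which starts at `X = 0` -/
theorem ray_VC {H : SimpleGraph V} {X Y : V → ℝ} {E F y₀ : ℝ} (hd : ADraw H X Y E F)
    {N T T' : V} (h : H.Adj N T) (h' : H.Adj N T') (hXN : X N = 0) (hYN : Y N = y₀)
    (hT : 0 < X T) (hT' : 0 < X T') (hne : X T ≠ X T')
    (he : X T * (Y T' - y₀) = X T' * (Y T - y₀)) : False := by
  have n1 : T ≠ T' := fun e => hne (by rw [e])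
  have n2 : T ≠ N := fun e => by rw [e, hXN] at hT; exact lt_irrefl _ hT
  have n3 : T' ≠ N := fun e => by rw [e, hXN] at hT'; exact lt_irrefl _ hT'
  rcases lt_or_gt_of_ne hne with h1 | h1
  · refine hd.vtx N T' T h' n2 n1 (X T / X T') (div_nonneg hT.le hT'.le)
      ((div_le_one hT').2 h1.le) ?_ ?_
    · rw [hXN]
      field_simp
      ring
    · rw [hYN]
      field_simp
      linarith
  · refine hd.vtx N T T' h n3 n1.symm (X T' / X T) (div_nonneg hT'.le hT.le)
      ((div_le_one hT).2 h1.le) ?_ ?_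
    · rw [hXN]
      field_simp
      ring
    · rw [hYN]
      field_simp
      linarith

/-- an edge which crosses two of these lines is horizontal -/
theorem two_V {H : SimpleGraph V} {X Y : V → ℝ} {E F a b : ℝ} (hd : ADraw H X Y E F)
    {N S T B T' B' p p' : V} (ha : 0 < a) (hb : 0 < b) (hc : VC H X Y b N S T B)
    (hc' : VC H X Y b N S T' B') (hne : X T ≠ X T') (hp : H.Adj p p') (k : InK X Y a b p)
    (k' : InK X Y a b p') (np : p ≠ T ∧ p ≠ B ∧ p ≠ T' ∧ p ≠ B')
    (np' : p' ≠ T ∧ p' ≠ B ∧ p' ≠ T' ∧ p' ≠ B')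
    (h1 : ¬ (Lf X Y b T B p ↔ Lf X Y b T B p')) (h2 : ¬ (Lf X Y b T' B' p ↔ Lf X Y b T' B' p')) :
    Y p' = Y p := by
  have hpos : ¬ (X p' - X p = 0 ∧ Y p' - Y p = 0) := fun ⟨e1, e2⟩ =>
    h1 (Lf_congr (by linarith) (by linarith))
  obtain ⟨s, x, y, hs0, hs1, hx, hy, c⟩ := hc.cross' hd ha hb hp k k' ⟨np.1, np.2.1⟩
    ⟨np'.1, np'.2.1⟩ h1
  obtain ⟨s', x', y', hs0', hs1', hx', hy', c'⟩ := hc'.cross' hd ha hb hp k k'
    ⟨np.2.2.1, np.2.2.2⟩ ⟨np'.2.2.1, np'.2.2.2⟩ h2
  have hE := hd.E_pos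
  have hF := hd.F_pos
  rcases c with ⟨c1, c2, c3, c4, c5⟩ | ⟨c1, c2, c3, c4⟩ | ⟨c1, c2, c3, c4, c5⟩
  · rcases c' with ⟨d1, d2, d3, d4, d5⟩ | ⟨d1, d2, d3, d4⟩ | ⟨d1, d2, d3, d4, d5⟩
    · exact (ray_VC hd hc.NT hc'.NT hc.XN hc.YN hc.XT hc'.XT hne
        (par_eq hE hF c5 d5 hpos)).elim
    · exact d4
    · have e1 := slope_up hE hF hc.XT (by linarith [hc.YT1]) c5 hpos
      have e2 := slope_dn hE hF hc'.XT (by linarith [hc'.YBb]) d5 hpos
      linarith
  · exact c4
  · rcases c' with ⟨d1, d2, d3, d4, d5⟩ | ⟨d1, d2, d3, d4⟩ | ⟨d1, d2, d3, d4, d5⟩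
    · have e1 := slope_up hE hF hc'.XT (by linarith [hc'.YT1]) d5 hpos
      have e2 := slope_dn hE hF hc.XT (by linarith [hc.YBb]) c5 hpos
      linarith
    · exact d4
    · have e1 := par_eq hE hF c5 d5 hpos
      refine (ray_VC hd hc.BS.symm hc'.BS.symm hc.XS hc.YS (by rw [hc.XB]; exact hc.XT)
        (by rw [hc'.XB]; exact hc'.XT) (by rw [hc.XB, hc'.XB]; exact hne) ?_).elim
      rw [hc.XB, hc'.XB]
      linarith

/-- a horizontal edge does not cross a line `C R L D` -/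
theorem hor_H {H : SimpleGraph V} {X Y : V → ℝ} {E F a b : ℝ} (hd : ADraw H X Y E F)
    {C D R L p p' : V} (ha : 0 < a) (hb : 0 < b) (hc : VC H Y X a C D R L) (hp : H.Adj p p')
    (k : InK X Y a b p) (k' : InK X Y a b p') (np : p ≠ R ∧ p ≠ L) (np' : p' ≠ R ∧ p' ≠ L)
    (h : Y p' = Y p) : Lf Y X a R L p ↔ Lf Y X a R L p' := by
  by_contra h1
  have hE := hd.E_pos
  have hF := hd.F_pos
  have hpos : ¬ (Y p' - Y p = 0 ∧ X p' - X p = 0) := fun ⟨e1, e2⟩ =>
    h1 (Lf_congr (by linarith) (by linarith))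
  obtain ⟨s, x, y, hs0, hs1, hx, hy, c⟩ := hc.cross' hd.swap hb ha hp k.swap k'.swap np np' h1
  have h0 : Y p' - Y p = 0 := by linarith
  rcases c with ⟨c1, c2, c3, c4, c5⟩ | ⟨c1, c2, c3, c4⟩ | ⟨c1, c2, c3, c4, c5⟩
  · have e1 := slope_up hF hE hc.XT (by linarith [hc.YT1]) c5 hpos
    rw [h0] at e1
    linarith
  · exact hpos ⟨h0, by linarith⟩
  · have e1 := slope_dn hF hE hc.XT (by linarith [hc.YBb]) c5 hpos
    rw [h0] at e1
    linarith

/-- no edge crosses one line `N T B S` and one line `C R L D` -/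
theorem VH {H : SimpleGraph V} {X Y : V → ℝ} {E F a b : ℝ} (hd : ADraw H X Y E F)
    {N S C D T B R L p p' : V} (hk : KN H X Y a b C D N S) (hc : VC H X Y b N S T B)
    (hr : VC H Y X a C D R L) (hx : X T < X R) (hy : Y R < Y T) (hp : H.Adj p p')
    (k : InK X Y a b p) (k' : InK X Y a b p') (np : p ≠ T ∧ p ≠ B ∧ p ≠ R ∧ p ≠ L)
    (np' : p' ≠ T ∧ p' ≠ B ∧ p' ≠ R ∧ p' ≠ L)
    (h1 : ¬ (Lf X Y b T B p ↔ Lf X Y b T B p')) : Lf Y X a R L p ↔ Lf Y X a R L p' := by
  by_contra h2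
  have ha := hk.a_pos
  have hb := hk.b_pos
  have hE := hd.E_pos
  have hF := hd.F_pos
  have hpos : ¬ (X p' - X p = 0 ∧ Y p' - Y p = 0) := fun ⟨e1, e2⟩ =>
    h1 (Lf_congr (by linarith) (by linarith))
  have hpos' : ¬ (Y p' - Y p = 0 ∧ X p' - X p = 0) := fun ⟨e1, e2⟩ => hpos ⟨e2, e1⟩
  obtain ⟨s, x, y, hs0, hs1, hx1, hy1, c⟩ := hc.cross' hd ha hb hp k k' ⟨np.1, np.2.1⟩
    ⟨np'.1, np'.2.1⟩ h1
  obtain ⟨s', y', x', hs0', hs1', hy2, hx2, c'⟩ := hr.cross' hd.swap hb ha hp k.swap k'.swap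
    ⟨np.2.2.1, np.2.2.2⟩ ⟨np'.2.2.1, np'.2.2.2⟩ h2
  have ex : x' - x = (s' - s) * (X p' - X p) := by rw [hx1, hx2]; ring
  have ey : y' - y = (s' - s) * (Y p' - Y p) := by rw [hy1, hy2]; ring
  have exy : (x' - x) * (y' - y) = (s' - s) ^ 2 * ((X p' - X p) * (Y p' - Y p)) := by
    rw [ex, ey]; ring
  rcases c with ⟨c1, c2, c3, c4, c5⟩ | ⟨c1, c2, c3, c4⟩ | ⟨c1, c2, c3, c4, c5⟩
  · have e1 := slope_up hE hF hc.XT (by linarith [hc.YT1]) c5 hpos
    rcases c' with ⟨d1, d2, d3, d4, d5⟩ | ⟨d1, d2, d3, d4⟩ | ⟨d1, d2, d3, d4, d5⟩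
    · have e2 : (x' - x) * (y' - y) < 0 :=
        mul_neg_of_pos_of_neg (by linarith) (by linarith)
      have e3 : 0 ≤ (s' - s) ^ 2 * ((X p' - X p) * (Y p' - Y p)) :=
        mul_nonneg (sq_nonneg _) e1.le
      linarith
    · rw [d4, sub_self, zero_mul] at e1
      exact lt_irrefl _ e1
    · have e2 := slope_dn hF hE hr.XT (by linarith [hr.YBb]) d5 hpos'
      linarith
  · exact h2 (hor_H hd ha hb hr hp k k' ⟨np.2.2.1, np.2.2.2⟩ ⟨np'.2.2.1, np'.2.2.2⟩ c4)
  · have e1 := slope_dn hE hF hc.XT (by linarith [hc.YBb]) c5 hpos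
    rcases c' with ⟨d1, d2, d3, d4, d5⟩ | ⟨d1, d2, d3, d4⟩ | ⟨d1, d2, d3, d4, d5⟩
    · have e2 := slope_up hF hE hr.XT (by linarith [hr.YT1]) d5 hpos'
      linarith
    · rw [d4, sub_self, zero_mul] at e1
      exact lt_irrefl _ e1
    · -- the edge crosses the diagonal `N S`
      have hYB := hc.YB
      have hXL := hr.YB
      have hxx : 0 < x - x' := by linarith
      obtain ⟨t, ht⟩ : ∃ t, t = x / (x - x') := ⟨_, rfl⟩
      have ht0 : 0 < t := by rw [ht]; exact div_pos c1 hxx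
      have ht1 : t < 1 := by rw [ht]; exact (div_lt_one hxx).2 (by linarith)
      have htx : t * (x - x') = x := by rw [ht]; exact div_mul_cancel₀ _ hxx.ne'
      obtain ⟨r, hr'⟩ : ∃ r, r = (1 - t) * s + t * s' := ⟨_, rfl⟩
      have hr0 : 0 < r := by
        rw [hr']
        have := mul_pos (show 0 < 1 - t by linarith) hs0
        have := mul_pos ht0 hs0'
        linarith
      have hr1 : r < 1 := by
        rw [hr']
        exact cvx ht0 ht1.le hs1 hs1'
      have hxr : (1 - r) * X p + r * X p' = 0 := by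
        have : (1 - r) * X p + r * X p' = (1 - t) * x + t * x' := by
          rw [hr', hx1, hx2]; ring
        rw [this]
        linarith
      obtain ⟨y₀, hy₀⟩ : ∃ y₀, y₀ = (1 - t) * y + t * y' := ⟨_, rfl⟩
      have hyr : (1 - r) * Y p + r * Y p' = y₀ := by
        rw [hy₀, hr', hy1, hy2]; ring
      have hy01 : y₀ < 1 := by
        rw [hy₀]
        exact cvx ht0 ht1.le (by linarith) (by linarith [hr.XT, hc.YT1])
      have hy0b : -b < y₀ := by
        have := cvx (A := -y) (A' := -y') (C := b) ht0 ht1.le (by linarith) (by linarith)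
        rw [hy₀]
        linarith
      have hb1 : 0 < 1 + b := by linarith
      have pN : p ≠ N := by
        rintro rfl
        have := k.1
        rw [hk.Xw, hk.Yw] at this
        linarith
      have pN' : p' ≠ N := by
        rintro rfl
        have := k'.1
        rw [hk.Xw, hk.Yw] at this
        linarith
      have pS : p ≠ S := by
        rintro rfl
        have := k.2.1
        rw [hk.Xw', hk.Yw'] at this
        linarith
      have pS' : p' ≠ S := by
        rintro rfl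
        have := k'.2.1
        rw [hk.Xw', hk.Yw'] at this
        linarith
      obtain ⟨-, -, -, m4⟩ := meet_edges hd hp hk.ww' pN pN' pS pS' hr0 hr1.le
        (t := (1 - y₀) / (1 + b)) (div_nonneg (by linarith) hb1.le)
        ((div_le_one hb1).2 (by linarith)) (by rw [hxr, hk.Xw, hk.Xw']; ring)
        (by rw [hyr, hk.Yw, hk.Yw']; field_simp; ring)
      rw [hk.Xw, hk.Xw', hk.Yw, hk.Yw'] at m4
      have h5 : F * (1 + b) * (Y p' - Y p) = 0 := by linarith
      rcases mul_eq_zero.1 h5 with h6 | h6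
      · exact absurd h6 (mul_pos hF hb1).ne'
      · rw [h6, mul_zero] at e1
        exact lt_irrefl _ e1

end Pool.Agent.Helper74.DG2
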