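import Pool.Agent.Helper74.DG2.Base
import Pool.Agent.Helper84.DG.Win

/-!
# Dark islands: the place of the frame of a grid in a monotone window
-/

set_option autoImplicit false

namespace Pool.Agent.Helper74.DG2

open Pool.Agent.Helper18.RAC Complex
open Pool.Agent.Helper82.DG (win_stepz win_stepw win_k4 win_chain)

variable {V : Type*}

theorem frame_of_win {H : SimpleGraph V} {f : V → ℂ} {a b : V} {w c : ℤ → V} {q : ℤ → ℂ}
    (h : WinR H f a b w c q 20) {κ : GX → V} {M : ℕ} (hg : HasGrid H κ M) {δ : ℤ}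
    (hδ : δ = 1 ∨ δ = -1) (hE : κ (.X true) = w δ) (hW : κ (.Y true) = w (-δ))
    (hS : κ (.Y false) = w 0) (hN : κ (.X false) = a ∨ κ (.X false) = b)
    (winj : ∀ s s', -20 ≤ s → s ≤ 20 → -20 ≤ s' → s' ≤ 20 → w s = w s' → s = s')
    (hnc : ∀ x : GN, x.ok M → κ (.v x) ≠ a ∧ κ (.v x) ≠ b ∧
      ∀ s, -20 ≤ s → s ≤ 20 → κ (.v x) ≠ w s) :
    κ (.X false) = c 0 ∧
      (∀ σ i, i < M → Cell f w c q 0 δ true (f (κ (.v (.U σ i))))) ∧
      (∀ j, j < 2 * M → Cell f w c q 0 δ false (f (κ (.v (.P false j))))) ∧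
      (∀ j ε, j + 1 < 2 * M → Cell f w c q 0 δ false (f (κ (.v (.C false j ε))))) ∧
      (∀ j, j < 2 * M → Cell f w c q 0 (-δ) true (f (κ (.v (.P true j))))) ∧
      (∀ j ε, j + 1 < 2 * M → Cell f w c q 0 (-δ) true (f (κ (.v (.C true j ε))))) := by
  have hM := hg.hM
  have hδ' : -δ = 1 ∨ -δ = -1 := by omega
  -- the edges of the frame
  have eyp : ∀ σ j, j < 2 * M → H.Adj (κ (.Y σ)) (κ (.v (.P σ j))) := fun σ j hj =>
    hg.adj (.yp σ j) hj
  have exu : ∀ σ i, i < M → H.Adj (κ (.X σ)) (κ (.v (.U σ i))) := fun σ i hi =>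
    hg.adj (.xu σ i) hi
  have eup : ∀ σ i, i < M → H.Adj (κ (.v (.U σ i))) (κ (.v (.P σ (2 * i)))) := fun σ i hi =>
    hg.adj (.up σ i) hi
  have epp : ∀ σ j, j + 1 < 2 * M → H.Adj (κ (.v (.P σ j))) (κ (.v (.P σ (j + 1)))) :=
    fun σ j hj => hg.adj (.pp σ j) hj
  have epc : ∀ σ j ε, j + 1 < 2 * M → H.Adj (κ (.v (.P σ j))) (κ (.v (.C σ j ε))) :=
    fun σ j ε hj => hg.adj (.pc σ j ε) hj
  have epc' : ∀ σ j ε, j + 1 < 2 * M → H.Adj (κ (.v (.P σ (j + 1)))) (κ (.v (.C σ j ε))) :=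
    fun σ j ε hj => hg.adj (.pc' σ j ε) hj
  have ecc : ∀ σ j, j + 1 < 2 * M → H.Adj (κ (.v (.C σ j false))) (κ (.v (.C σ j true))) :=
    fun σ j hj => hg.adj (.cc σ j) hj
  have euu : H.Adj (κ (.v (.U false (M - 1)))) (κ (.v (.U true (M - 1)))) := hg.adj .uu trivial
  have euq : ∀ σ, H.Adj (κ (.v (.U σ (M - 1)))) (κ (.v (.Q false))) := fun σ =>
    hg.adj (.uq σ false) trivial
  have eud : ∀ σ, H.Adj (κ (.v (.U σ (M - 1)))) (κ (.v (.Q true))) := fun σ =>
    hg.adj (.uq σ true) trivial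
  have eqd : H.Adj (κ (.v (.Q false))) (κ (.v (.Q true))) := hg.adj .qq trivial
  -- the vertices are not corners
  have nU : ∀ σ i, i < M → _ := fun σ i hi => hnc (.U σ i) hi
  have nP : ∀ σ j, j < 2 * M → _ := fun σ j hj => hnc (.P σ j) hj
  have nC : ∀ σ j ε, j + 1 < 2 * M → _ := fun σ j ε hj => hnc (.C σ j ε) hj
  have nQ := hnc (.Q false) trivial
  -- step 2: the vertex `U true (M - 1)`
  obtain ⟨k₁, hR⟩ : ∃ k₁, Cell f w c q 0 δ k₁ (f (κ (.v (.U true (M - 1))))) := by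
    have e1 := exu true (M - 1) (by omega)
    rw [hE] at e1
    have n1 := nU true (M - 1) (by omega)
    rcases h.around (t := δ) (by omega) (by omega) e1 with e | e | e | e | e | e |
      ⟨s₁, δ₁, k₁, h1, h2, hδ₁, h3, hc⟩
    · exact absurd e (n1.2.2 _ (by omega) (by omega))
    · exact absurd e (n1.2.2 _ (by omega) (by omega))
    · exact absurd e (n1.2.2 _ (by omega) (by omega))
    · exact absurd e (n1.2.2 _ (by omega) (by omega))
    · exact absurd e n1.1
    · exact absurd e n1.2.1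
    · obtain ⟨s', δ', k', hr, hδ'', hb1, hb2, hc'⟩ := win_stepz h hδ₁ (by omega) (by omega)
        (eup true (M - 1) (by omega)) hc (nP true (2 * (M - 1)) (by omega))
      have e2 := (eyp true (2 * (M - 1)) (by omega)).symm
      rw [hW] at e2
      have h4 := win_stepw h winj hδ'' (by omega) (by omega) (by omega) (by omega) e2 hc'
      refine ⟨k₁, ?_⟩
      have h5 : s₁ = 0 ∧ δ₁ = δ := by
        rcases hr with ⟨r1, r2⟩ | ⟨r1, r2, r3⟩ | ⟨r1, r2, r3, r4⟩ | ⟨r1, r2, r3, r4⟩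
        · rcases h3 with h3 | ⟨h3, -⟩ <;> rcases h4 with h4 | ⟨-, h4⟩ <;> omega
        · rcases h3 with h3 | ⟨h3, -⟩ <;> rcases h4 with h4 | ⟨-, h4⟩ <;> omega
        · rcases h3 with h3 | ⟨h3, -⟩ <;> rcases h4 with h4 | ⟨-, h4⟩ <;> omega
        · rcases h4 with h4 | ⟨h4, -⟩
          · rcases h3 with h3 | ⟨-, h3⟩
            · omega
            · rw [r1] at h3; exact absurd h3 (by decide)
          · rw [r2] at h4; exact absurd h4 (by decide)
      rw [h5.1, h5.2] at hc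
      exact hc
  -- step 3: the complete graph at the far corner
  have hT : Cell f w c q 0 δ k₁ (f (κ (.v (.U false (M - 1))))) :=
    win_k4 h hδ hR euu.symm (euq true) (eud true) (euq false) (eud false) eqd
      (nU false _ (by omega)) nQ (hnc (.Q true) trivial)
  obtain ⟨hk₁, hNc⟩ := h.steph hδ (by omega) (by omega)
    (exu false (M - 1) (by omega)).symm hT hN
  rw [hk₁] at hR hT
  -- step 4: the lower vertices
  have hP0 : Cell f w c q 0 δ false (f (κ (.v (.P false (2 * (M - 1)))))) := by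
    obtain ⟨s', δ', k', hr, hδ'', hb1, hb2, hc'⟩ := win_stepz h hδ (by omega) (by omega)
      (eup false (M - 1) (by omega)) hT (nP false (2 * (M - 1)) (by omega))
    have e2 := (eyp false (2 * (M - 1)) (by omega)).symm
    rw [hS] at e2
    have h4 := win_stepw h winj hδ'' (by omega) (by omega) (by omega) (by omega) e2 hc'
    rcases hr with ⟨r1, r2⟩ | ⟨r1, r2, r3⟩ | ⟨r1, r2, r3, r4⟩ | ⟨r1, r2, r3, r4⟩
    · rcases h4 with h4 | ⟨h4, -⟩
      · omega
      · rw [r1, r2, h4] at hc'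
        exact hc'
    · rcases h4 with h4 | ⟨h4, -⟩
      · omega
      · rw [r3] at h4; exact absurd h4 (by decide)
    · exact absurd r1 (by decide)
    · rcases h4 with h4 | ⟨h4, -⟩
      · omega
      · rw [r2] at h4; exact absurd h4 (by decide)
  obtain ⟨aP0, aC0⟩ := win_chain h hδ (n := 2 * M) (P := fun j => κ (.v (.P false j)))
    (C := fun j ε => κ (.v (.C false j ε))) (nP false) (nC false) (epp false) (epc false)
    (epc' false) (ecc false) (j₀ := 2 * (M - 1)) (by omega) hP0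
  -- step 5: the left vertices
  have hP1 : Cell f w c q 0 (-δ) true (f (κ (.v (.P true (2 * (M - 1)))))) := by
    obtain ⟨s', δ', k', hr, hδ'', hb1, hb2, hc'⟩ := win_stepz h hδ (by omega) (by omega)
      (eup true (M - 1) (by omega)) hR (nP true (2 * (M - 1)) (by omega))
    have e2 := (eyp true (2 * (M - 1)) (by omega)).symm
    rw [hW] at e2
    have h4 := win_stepw h winj hδ'' (by omega) (by omega) (by omega) (by omega) e2 hc'
    rcases hr with ⟨r1, r2⟩ | ⟨r1, r2, r3⟩ | ⟨r1, r2, r3, r4⟩ | ⟨r1, r2, r3, r4⟩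
    · rcases h4 with h4 | ⟨-, h4⟩ <;> omega
    · rw [r1, r2, r3] at hc'
      exact hc'
    · exact absurd r1 (by decide)
    · rcases h4 with h4 | ⟨h4, -⟩
      · omega
      · rw [r2] at h4; exact absurd h4 (by decide)
  obtain ⟨aP1, aC1⟩ := win_chain h hδ' (n := 2 * M) (P := fun j => κ (.v (.P true j)))
    (C := fun j ε => κ (.v (.C true j ε))) (nP true) (nC true) (epp true) (epc true)
    (epc' true) (ecc true) (j₀ := 2 * (M - 1)) (by omega) hP1
  refine ⟨hNc, fun σ i hi => ?_, aP0, aC0, aP1, aC1⟩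
  cases σ with
  | false =>
    obtain ⟨s', δ', k', hr, hδ'', hb1, hb2, hc'⟩ := win_stepz h hδ (by omega) (by omega)
      (eup false i hi).symm (aP0 (2 * i) (by omega)) (nU false i hi)
    obtain ⟨h4, -⟩ := h.steph hδ'' (by omega) (by omega) (exu false i hi).symm hc' hN
    rcases hr with ⟨r1, r2⟩ | ⟨r1, r2, r3⟩ | ⟨r1, r2, r3, r4⟩ | ⟨r1, r2, r3, r4⟩
    · rw [r1, r2, h4] at hc'
      exact hc'
    · rw [r3] at h4; exact absurd h4 (by decide)
    · rw [r2] at h4; exact absurd h4 (by decide)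
    · exact absurd r1 (by decide)
  | true =>
    obtain ⟨s', δ', k', hr, hδ'', hb1, hb2, hc'⟩ := win_stepz h hδ' (by omega) (by omega)
      (eup true i hi).symm (aP1 (2 * i) (by omega)) (nU true i hi)
    have e2 := (exu true i hi).symm
    rw [hE] at e2
    have h4 := win_stepw h winj hδ'' (by omega) (by omega) (by omega) (by omega) e2 hc'
    rcases hr with ⟨r1, r2⟩ | ⟨r1, r2, r3⟩ | ⟨r1, r2, r3, r4⟩ | ⟨r1, r2, r3, r4⟩
    · rcases h4 with h4 | ⟨-, h4⟩ <;> omega
    · rw [r1, r2, r3, neg_neg] at hc'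
      exact hc'
    · exact absurd r1 (by decide)
    · rcases h4 with h4 | ⟨h4, -⟩
      · omega
      · rw [r2] at h4; exact absurd h4 (by decide)

end Pool.Agent.Helper74.DG2
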